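import Mathlib
import Pool.Agent.H829R3.LR4

set_option autoImplicit false

/-!
# The linear refinement number is regular

All notions are those of the problem file, for families of infinite subsets of `ℕ`.
-/

open Cardinal

namespace Pool.Agent.Results.MP_540072_lc.Regular

/-- `B ⊆* A`: the set `B \ A` is finite. -/
def AlmostSubset (B A : Set ℕ) : Prop := (B \ A).Finite

/-- `F` is centered: the intersection of any finitely many (at least one) members is infinite;
in particular all members are infinite. -/
def IsCentered (F : Set (Set ℕ)) : Prop :=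
  ∀ Φ : Finset (Set ℕ), Φ.Nonempty → (↑Φ : Set (Set ℕ)) ⊆ F → (⋂ A ∈ Φ, A).Infinite

/-- `G` is linear: a family of infinite sets any two of which are comparable by `⊆*`. -/
def IsLinear (G : Set (Set ℕ)) : Prop :=
  (∀ A ∈ G, A.Infinite) ∧ ∀ A ∈ G, ∀ B ∈ G, AlmostSubset A B ∨ AlmostSubset B A

/-- `G` is a refinement of `F`: every `A ∈ F` has some `B ∈ G` with `B ⊆* A`. -/
def IsRefinement (G F : Set (Set ℕ)) : Prop := ∀ A ∈ F, ∃ B ∈ G, AlmostSubset B A

/-- The linear refinement number: the least cardinality of a centered family which has no linear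
refinement. -/
noncomputable def linearRefinementNumber : Cardinal.{0} :=
  sInf {κ : Cardinal.{0} | ∃ F : Set (Set ℕ), IsCentered F ∧ #F = κ ∧
    ¬ ∃ G : Set (Set ℕ), IsLinear G ∧ IsRefinement G F}

lemma centered_iff (F : Set (Set ℕ)) : IsCentered F ↔ Pool.Agent.H829R3.LR.Cent F := by
  constructor
  · intro h Φ hΦ
    rcases Φ.eq_empty_or_nonempty with rfl | hne
    · simpa using Set.infinite_univ
    · exact h Φ hne hΦ
  · intro h Φ _ hΦ
    exact h Φ hΦ

lemma refinement_iff (F : Set (Set ℕ)) : (∃ G : Set (Set ℕ), IsLinear G ∧ IsRefinement G F) ↔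
    ∃ T : Set (Set ℕ), Pool.Agent.H829R3.LR.Lin T ∧ Pool.Agent.H829R3.LR.Ref T F := Iff.rfl

/-- **ZFC proves that the linear refinement number is a regular cardinal.** -/
theorem result : linearRefinementNumber.IsRegular := by
  have hne : {κ : Cardinal.{0} | ∃ F : Set (Set ℕ), IsCentered F ∧ #F = κ ∧
      ¬ ∃ G : Set (Set ℕ), IsLinear G ∧ IsRefinement G F}.Nonempty := by
    obtain ⟨F, hF, hno⟩ := Pool.Agent.H829R3.LR.exists_bad
    exact ⟨#F, F, (centered_iff F).2 hF, rfl, fun h => hno ((refinement_iff F).1 h)⟩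
  obtain ⟨F, hF, hFc, hno⟩ := csInf_mem hne
  refine Pool.Agent.H829R3.LR.regular_of ?_ F ((centered_iff F).1 hF) hFc
    (fun h => hno ((refinement_iff F).2 h))
  intro G hG hGc
  by_contra hcon
  have : linearRefinementNumber ≤ #G :=
    csInf_le' ⟨G, (centered_iff G).2 hG, rfl, fun h => hcon ((refinement_iff G).1 h)⟩
  exact absurd hGc (not_lt.2 this)

end Pool.Agent.Results.MP_540072_lc.Regular
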